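import Mathlib
import Pool.Agent.Results.MP_73a90e_al.LogarithmicConstants

/-!
Finite algebras `A` and the least size `d A n` of a generating set of the power `A ^ n`.

For every `m ≥ 1` there is an algebra with three elements such that
`log₂ (n.choose m) ≤ d(n) ≤ m * ⌈log₂ n⌉` for all `n ≥ 1`, so `d(n) = m * log₂ n + O(1)`.
Hence the constant in the logarithmic alternative is not bounded in terms of the size of `A`.
-/

namespace Pool.Agent.Results.MP_b06d56_al.LogarithmicConstants

open Pool.Agent.Results.MP_73a90e_al.LogarithmicConstants (z Indep sum_fibres nsmul_zmod2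
  zmod2_add_self exists_indep Indep.mono)

/-- An algebra with universe `A`: a family of everywhere defined operations of finite arity.
No restriction is placed on the index set `I` of the signature. -/
structure Alg (A : Type) where
  /-- index set of the signature -/
  I : Type
  /-- arities -/
  ar : I → ℕ
  /-- operations -/
  op : (i : I) → (Fin (ar i) → A) → A

/-- `S ⊆ A ^ n` is closed under all operations, acting coordinatewise. -/
def IsClosedIn {A : Type} (M : Alg A) (n : ℕ) (S : Set (Fin n → A)) : Prop :=
  ∀ (i : M.I) (a : Fin (M.ar i) → Fin n → A), (∀ j, a j ∈ S) →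
    (fun c => M.op i (fun j => a j c)) ∈ S

/-- `X` generates the `n`-th power: the only closed set containing `X` is everything. -/
def Generates {A : Type} (M : Alg A) (n : ℕ) (X : Set (Fin n → A)) : Prop :=
  ∀ S : Set (Fin n → A), IsClosedIn M n S → X ⊆ S → S = Set.univ

/-- The least size of a generating set of the `n`-th power. -/
noncomputable def d {A : Type} (M : Alg A) (n : ℕ) : ℕ :=
  sInf {k | ∃ X : Finset (Fin n → A), X.card = k ∧ Generates M n (X : Set (Fin n → A))}

open Classical in
/-- The strict extension of `f` to a total operation on `Option Bool`. -/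
noncomputable def ext {k : ℕ} (f : (Fin k → Bool) → Option Bool) (s : Fin k → Option Bool) :
    Option Bool :=
  if ∀ j, s j ≠ none then f (fun j => (s j).getD false) else none

lemma ext_pos {k : ℕ} (f : (Fin k → Bool) → Option Bool) (s : Fin k → Option Bool)
    (h : ∀ j, s j ≠ none) : ext f s = f (fun j => (s j).getD false) := by
  unfold ext
  rw [if_pos h]

lemma ext_neg {k : ℕ} (f : (Fin k → Bool) → Option Bool) (s : Fin k → Option Bool)
    (h : ¬ ∀ j, s j ≠ none) : ext f s = none := by
  unfold ext
  rw [if_neg h]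

/-- Strict extensions of all operations with independent domain. -/
noncomputable def alg3 (m : ℕ) : Alg (Option Bool) where
  I := Σ k : ℕ, {f : (Fin k → Bool) → Option Bool // Indep m k {s | f s ≠ none}}
  ar := fun i => i.1
  op := fun i => ext i.2.1

open Classical in
/-- Parity on a small even set is preserved by all operations of `alg3 m`. -/
lemma parity_closed (m n : ℕ) (Λ : Finset (Fin n)) (hΛ : Λ.card ≤ 2 * m) (hev : Even Λ.card) :
    IsClosedIn (alg3 m) n
      {f | (∀ c ∈ Λ, f c ≠ none) → ∑ c ∈ Λ, z ((f c).getD false) = 0} := by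
  rintro ⟨k, f, hf⟩ a ha hb
  change Fin k → Fin n → Option Bool at a
  change ∀ c ∈ Λ, ext f (fun j => a j c) ≠ none at hb
  change ∑ c ∈ Λ, z ((ext f (fun j => a j c)).getD false) = 0
  set y : Fin n → (Fin k → Bool) := fun c j => (a j c).getD false with hy
  have hall : ∀ c ∈ Λ, ∀ j, a j c ≠ none := by
    intro c hc
    by_contra hcon
    exact hb c hc (ext_neg f (fun j => a j c) hcon)
  have hval : ∀ c ∈ Λ, ext f (fun j => a j c) = f (y c) := by
    intro c hc
    exact ext_pos f (fun j => a j c) (hall c hc)
  set T := (Λ.image y).filter (fun s => Odd (Λ.filter (fun c => y c = s)).card) with hT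
  have hTe : T = ∅ := by
    apply hf T
    · intro s hs
      have hs' : s ∈ T := hs
      rw [hT, Finset.mem_filter, Finset.mem_image] at hs'
      obtain ⟨⟨c, hc, rfl⟩, _⟩ := hs'
      change f (y c) ≠ none
      rw [← hval c hc]
      exact hb c hc
    · exact ((Finset.card_filter_le _ _).trans Finset.card_image_le).trans hΛ
    · have h1 := sum_fibres Λ y (fun _ => 1)
      rw [Finset.sum_const, Finset.sum_const, nsmul_zmod2, nsmul_zmod2] at h1
      rw [if_neg (Nat.not_odd_iff_even.2 hev)] at h1
      by_contra hcon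
      rw [Nat.not_even_iff_odd] at hcon
      rw [if_pos hcon] at h1
      exact absurd h1 (by decide)
    · intro j
      have h1 := sum_fibres Λ y (fun s => z (s j))
      rw [← h1]
      exact ha j (fun c hc => hall c hc j)
  have h2 := sum_fibres Λ y (fun s => z ((f s).getD false))
  rw [← hT, hTe, Finset.sum_empty] at h2
  rw [← h2]
  refine Finset.sum_congr rfl (fun c hc => ?_)
  rw [hval c hc]

open Classical in
/-- Pigeonhole: a generating set of size `g` forces `n.choose m ≤ 2 ^ g`. -/
lemma choose_le_of_generates (m n : ℕ) (X : Finset (Fin n → Option Bool))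
    (hX : Generates (alg3 m) n (X : Set (Fin n → Option Bool))) : n.choose m ≤ 2 ^ X.card := by
  by_contra hlt
  push Not at hlt
  have hcard : (Finset.univ : Finset (X → ZMod 2)).card
      < ((Finset.univ : Finset (Fin n)).powersetCard m).card := by
    rw [Finset.card_powersetCard, Finset.card_univ, Finset.card_univ, Fintype.card_fin,
      Fintype.card_fun, ZMod.card, Fintype.card_coe]
    exact hlt
  obtain ⟨P, hP, Q, hQ, hPQ, heq⟩ := Finset.exists_ne_map_eq_of_card_lt_of_maps_to hcard
    (f := fun P : Finset (Fin n) => fun x : X => ∑ c ∈ P, z ((x.1 c).getD false))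
    (fun P _ => Finset.mem_coe.2 (Finset.mem_univ _))
  rw [Finset.mem_powersetCard] at hP hQ
  have hdisj : Disjoint (P \ Q) (Q \ P) := by
    rw [Finset.disjoint_left]
    intro c hc hc'
    rw [Finset.mem_sdiff] at hc hc'
    exact hc.2 hc'.1
  have hc1 : (P \ Q).card + (P ∩ Q).card = m := by
    rw [Finset.card_sdiff_add_card_inter]; exact hP.2
  have hc2 : (Q \ P).card + (Q ∩ P).card = m := by
    rw [Finset.card_sdiff_add_card_inter]; exact hQ.2
  rw [Finset.inter_comm Q P] at hc2
  set Λ := (P \ Q) ∪ (Q \ P) with hΛ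
  have hΛc : Λ.card = 2 * (P \ Q).card := by
    rw [hΛ, Finset.card_union_of_disjoint hdisj]
    omega
  have hcl := parity_closed m n Λ (by omega) ⟨(P \ Q).card, by omega⟩
  have hsum : ∀ x : Fin n → Option Bool,
      ∑ c ∈ P, z ((x c).getD false) = ∑ c ∈ Q, z ((x c).getD false) →
      ∑ c ∈ Λ, z ((x c).getD false) = 0 := by
    intro x hx
    rw [hΛ, Finset.sum_union hdisj]
    have e1 : ∑ c ∈ P \ Q, z ((x c).getD false) + ∑ c ∈ P ∩ Q, z ((x c).getD false)
        = ∑ c ∈ P, z ((x c).getD false) := by
      rw [add_comm]; exact Finset.sum_inter_add_sum_sdiff P Q _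
    have e2 : ∑ c ∈ Q \ P, z ((x c).getD false) + ∑ c ∈ P ∩ Q, z ((x c).getD false)
        = ∑ c ∈ Q, z ((x c).getD false) := by
      rw [add_comm, Finset.inter_comm]; exact Finset.sum_inter_add_sum_sdiff Q P _
    have e3 : ∑ c ∈ P \ Q, z ((x c).getD false) = ∑ c ∈ Q \ P, z ((x c).getD false) := by
      have := e1.trans (hx.trans e2.symm)
      exact add_right_cancel this
    rw [e3]
    exact zmod2_add_self _
  have huniv := hX _ hcl (by
    intro x hx _
    exact hsum x (congrFun heq ⟨x, hx⟩))
  have hne : Λ.Nonempty := by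
    rw [Finset.nonempty_iff_ne_empty]
    intro h0
    apply hPQ
    have h00 : (P \ Q) = ∅ ∧ (Q \ P) = ∅ := by
      rw [hΛ, Finset.union_eq_empty] at h0
      exact h0
    exact Finset.Subset.antisymm (Finset.sdiff_eq_empty_iff_subset.1 h00.1)
      (Finset.sdiff_eq_empty_iff_subset.1 h00.2)
  obtain ⟨c0, hc0⟩ := hne
  have hmem : (fun c => some (decide (c = c0))) ∈
      {f : Fin n → Option Bool | (∀ c ∈ Λ, f c ≠ none) →
        ∑ c ∈ Λ, z ((f c).getD false) = 0} := by
    rw [huniv]; exact Set.mem_univ _
  have hone : ∑ c ∈ Λ, z (decide (c = c0)) = 1 := by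
    rw [Finset.sum_eq_single c0]
    · simp [z]
    · intro c _ hc
      simp [z, hc]
    · intro h
      exact absurd hc0 h
  have hzero : ∑ c ∈ Λ, z (decide (c = c0)) = 0 := hmem (fun c _ => by simp)
  rw [hone] at hzero
  exact absurd hzero (by decide)

open Classical in
/-- An independent set of size at least `n` in `{0,1} ^ g` gives `g` generators. -/
lemma d_le_of_indep (m n g : ℕ) (D : Finset (Fin g → Bool))
    (hD : Indep m g (D : Set (Fin g → Bool))) (hn : n ≤ D.card) : d (alg3 m) n ≤ g := by
  have hemb : Nonempty (Fin n ↪ D) := by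
    rw [Function.Embedding.nonempty_iff_card_le, Fintype.card_fin, Fintype.card_coe]
    exact hn
  obtain ⟨e⟩ := hemb
  set x : Fin g → (Fin n → Option Bool) := fun j c => some ((e c).1 j) with hx
  have hgen : Generates (alg3 m) n
      ((Finset.univ.image x : Finset (Fin n → Option Bool)) : Set (Fin n → Option Bool)) := by
    intro S hS hXS
    rw [Set.eq_univ_iff_forall]
    intro b
    let f : (Fin g → Bool) → Option Bool := fun s =>
      if h : ∃ c, (e c).1 = s then b h.choose else none
    have hf : Indep m g {s | f s ≠ none} := by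
      apply hD.mono
      intro s hs
      by_contra hcon
      apply hs
      change (if h : ∃ c, (e c).1 = s then b h.choose else none) = none
      rw [dif_neg]
      rintro ⟨c, rfl⟩
      exact hcon (e c).2
    have h0 := hS ⟨g, f, hf⟩ x (fun j => hXS (by
      rw [Finset.coe_image, Finset.coe_univ, Set.image_univ]
      exact ⟨j, rfl⟩))
    have h3 : (fun c => (alg3 m).op ⟨g, f, hf⟩ (fun j => x j c)) = b := by
      funext c
      change ext f (fun j => some ((e c).1 j)) = b c
      rw [ext_pos f (fun j => some ((e c).1 j)) (fun j => by simp)]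
      change f (fun j => (e c).1 j) = b c
      have hex : ∃ c', (e c').1 = (fun j => (e c).1 j) := ⟨c, rfl⟩
      change (if h : ∃ c', (e c').1 = (fun j => (e c).1 j) then b h.choose else none) = b c
      rw [dif_pos hex]
      have h1 := hex.choose_spec
      have h2 : e hex.choose = e c := Subtype.ext h1
      rw [e.injective h2]
    rw [← h3]
    exact h0
  have h1 : d (alg3 m) n ≤ (Finset.univ.image x).card :=
    Nat.sInf_le ⟨_, rfl, hgen⟩
  refine h1.trans (Finset.card_image_le.trans ?_)
  rw [Finset.card_univ, Fintype.card_fin]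

lemma generates_univ (M : Alg (Option Bool)) (n : ℕ) :
    Generates M n
      ((Finset.univ : Finset (Fin n → Option Bool)) : Set (Fin n → Option Bool)) := by
  intro S _ hS
  rw [Finset.coe_univ] at hS
  exact Set.univ_subset_iff.1 hS

lemma d_spec (M : Alg (Option Bool)) (n : ℕ) : ∃ X : Finset (Fin n → Option Bool),
    X.card = d M n ∧ Generates M n (X : Set (Fin n → Option Bool)) :=
  Nat.sInf_mem (s := {k | ∃ X : Finset (Fin n → Option Bool), X.card = k ∧
    Generates M n (X : Set (Fin n → Option Bool))}) ⟨_, Finset.univ, rfl, generates_univ M n⟩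

/-- **Theorem.** For every `m ≥ 1` there is an algebra with exactly three elements such that
`log₂ (n.choose m) ≤ d(n) ≤ m * ⌈log₂ n⌉` for all `n ≥ 1`. -/
theorem result (m : ℕ) (hm : 1 ≤ m) : ∃ (A : Type) (M : Alg A), Nat.card A = 3 ∧
    ∀ n : ℕ, 1 ≤ n → n.choose m ≤ 2 ^ d M n ∧ d M n ≤ m * Nat.clog 2 n := by
  refine ⟨Option Bool, alg3 m, by simp, fun n _ => ⟨?_, ?_⟩⟩
  · obtain ⟨X, hXc, hX⟩ := d_spec (alg3 m) n
    rw [← hXc]
    exact choose_le_of_generates m n X hX
  · obtain ⟨D, hD, hcard⟩ := exists_indep m (Nat.clog 2 n) hm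
    exact d_le_of_indep m n _ D hD ((Nat.le_pow_clog (by norm_num) n).trans hcard)

end Pool.Agent.Results.MP_b06d56_al.LogarithmicConstants
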